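import Pool.Agent.H90.STE.Stmts
import Pool.Agent.H20.KA.TRC
import Pool.Agent.H31.STK.RED

/-!
# Sticky families with a random time: replacing the resolution by a multiple of `N`
-/

set_option autoImplicit false

namespace Pool.STE

open Finset Real
open Pool.Agent.H49.Ent Pool.Agent.H32.Dense Pool.STK Pool.KA Pool.KA.TRC

namespace RD

/-- The position of the truncated family, given its time. -/
theorem pos {m J : ℕ} (F : Fam m J) (x : ℕ) (hx : x ≤ J) :
    CH F.p ((F.trc x hx).X x) (F.trc x hx).W ≤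
      CH F.p (F.X J) F.W + cc m + ((J : ℝ) - x) * Real.log 2 := by
  have hp := F.isLaw
  have hp0 := hp.nonneg
  have hJx : J - x + x = J := Nat.sub_add_cancel hx
  have hx' : (((J - x : ℕ) : ℝ)) = (J : ℝ) - x := by
    rw [Nat.cast_sub hx]
  set T' : F.Ω → ℕ := fun ω => F.T ω / 2 ^ (J - x) with hT'
  have hdet : Det F.p F.T T' := fun ω ω' _ _ h => by
    change F.T ω = F.T ω' at h
    simp only [hT', h]
  have c4 : CH F.p F.T (fun ω => (T' ω, F.Z ω)) ≤ ((J : ℝ) - x) * Real.log 2 := by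
    rw [← hx']
    exact CH_div hp F.T F.Z (J - x)
  set Y : F.Ω → Fin m → ℤ := (F.trc x hx).X x with hY
  have d1 : CH F.p Y (fun ω => (F.T ω, (T' ω, F.Z ω))) = CH F.p Y F.W := by
    refine CH_congr hp0 (fun _ _ _ _ h => (Prod.ext_iff.mp h).1)
      (fun _ _ _ _ h => (Prod.ext_iff.mp h).1) ?_ ?_
    · intro ω ω' _ _ h
      have h1 := Prod.ext_iff.mp h
      exact Prod.ext h1.1 (Prod.ext_iff.mp h1.2).2
    · intro ω ω' a b h
      have h1 : F.T ω = F.T ω' := (Prod.ext_iff.mp h).1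
      have h2 : F.Z ω = F.Z ω' := (Prod.ext_iff.mp h).2
      exact Prod.ext h1 (Prod.ext (hdet ω ω' a b h1) h2)
  have d2 := CH_le_add hp0 Y F.T (fun ω => (T' ω, F.Z ω))
  rw [d1] at d2
  have hclose : ∀ ω k, |(2 : ℝ) ^ x * (F.u ω k + (T' ω : ℝ) / 2 ^ x * F.d ω k) -
      2 ^ x * (F.u ω k + (F.T ω : ℝ) / 2 ^ J * F.d ω k)| ≤ 1 := by
    intro ω k
    have e1 : (2 : ℝ) ^ x * (F.u ω k + (T' ω : ℝ) / 2 ^ x * F.d ω k) -
        2 ^ x * (F.u ω k + (F.T ω : ℝ) / 2 ^ J * F.d ω k) =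
        2 ^ x * ((T' ω : ℝ) / 2 ^ x - (F.T ω : ℝ) / 2 ^ J) * F.d ω k := by ring
    have e2 : (2 : ℝ) ^ J = 2 ^ (J - x) * 2 ^ x := by rw [← pow_add, hJx]
    have hdm := Nat.div_add_mod (F.T ω) (2 ^ (J - x))
    have hml := Nat.mod_lt (F.T ω) (y := 2 ^ (J - x)) (by positivity)
    have e3 : (F.T ω : ℝ) = 2 ^ (J - x) * (T' ω : ℝ) + ((F.T ω % 2 ^ (J - x) : ℕ) : ℝ) := by
      rw [hT']
      exact_mod_cast hdm.symm
    have e4 : ((F.T ω % 2 ^ (J - x) : ℕ) : ℝ) < 2 ^ (J - x) := by exact_mod_cast hml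
    have e5 : (0 : ℝ) ≤ ((F.T ω % 2 ^ (J - x) : ℕ) : ℝ) := by positivity
    have p1 : (0 : ℝ) < 2 ^ (J - x) := by positivity
    have p2 : (0 : ℝ) < 2 ^ x := by positivity
    have e6 : (2 : ℝ) ^ x * ((T' ω : ℝ) / 2 ^ x - (F.T ω : ℝ) / 2 ^ J) =
        -(((F.T ω % 2 ^ (J - x) : ℕ) : ℝ) / 2 ^ (J - x)) := by
      rw [e2]
      field_simp
      linarith
    rw [e1, e6, abs_mul, abs_neg,
      abs_of_nonneg (a := ((F.T ω % 2 ^ (J - x) : ℕ) : ℝ) / 2 ^ (J - x)) (by positivity)]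
    have e7 : ((F.T ω % 2 ^ (J - x) : ℕ) : ℝ) / 2 ^ (J - x) ≤ 1 := by
      rw [div_le_one p1]
      exact e4.le
    calc _ ≤ 1 * 1 := mul_le_mul e7 (F.dir ω k) (abs_nonneg _) (by norm_num)
      _ = 1 := by norm_num
  have f1 : CH F.p Y F.W ≤ CH F.p (F.X x) F.W + cc m := by
    refine CH_le_round hp Y (F.X x) F.W fun ω ω' _ _ _ h k => ?_
    exact floor_close (congrFun h k) (hclose ω k) (hclose ω' k)
  have f2 : CH F.p (F.X x) F.W ≤ CH F.p (F.X J) F.W := by
    refine CH_mono_left hp0 ?_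
    intro ω ω' _ _ e
    exact RED.fl_nested hx (Prod.ext_iff.mp e).1
  have f3 : CH F.p Y (F.trc x hx).W = CH F.p Y (fun ω => (T' ω, F.Z ω)) := rfl
  rw [f3]
  linarith

/-- The directions of the truncated family. -/
theorem dirs {m J : ℕ} (F : Fam m J) (x : ℕ) (hx : x ≤ J) :
    CH F.p (F.D J) F.Z ≤ CH F.p (F.D x) F.Z + m * (((J : ℝ) - x) * Real.log 2) := by
  have hp := F.isLaw
  have hx' : (((J - x : ℕ) : ℝ)) = (J : ℝ) - x := by
    rw [Nat.cast_sub hx]
  have h1 := CH_le_add hp.nonneg (F.D J) (F.D x) F.Z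
  have h2 := CH_floor hp F.d F.Z x (J - x)
  rw [show x + (J - x) = J by omega, hx'] at h2
  have h3 : CH F.p (F.D J) (fun ω => (F.D x ω, F.Z ω)) ≤ m * (((J : ℝ) - x) * Real.log 2) := h2
  linarith

end RD

open RD

theorem rd : RDStmt := by
  intro m a R η ε θ N ha hη hε hθ hN
  obtain ⟨K, hK⟩ := exists_nat_ge
    (2 * (|R - η| * N + a * (cc m + N * Real.log 2) + m * (N * Real.log 2)) / η)
  refine ⟨2 * N + K, ?_⟩
  intro J hJ F hT hS hM
  have hlt : J < N * (J / N) + N := by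
    have := Nat.lt_mul_div_succ J (by omega : 0 < N)
    rw [Nat.mul_succ] at this
    exact this
  have hle : N * (J / N) ≤ J := Nat.mul_div_le J N
  obtain ⟨C, _, hC⟩ := trc_thm m
  have hTm := (hC J F (N * (J / N)) hle (θ / 2 * J) hT).1
  have hpos := pos F (N * (J / N)) hle
  have hdir := dirs F (N * (J / N)) hle
  set x := N * (J / N) with hx
  have hltR : (J : ℝ) < x + N := by exact_mod_cast hlt
  have hleR : (x : ℝ) ≤ J := by exact_mod_cast hle
  have hJR : (2 * N + K : ℝ) ≤ J := by exact_mod_cast hJ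
  have hK0 : (0 : ℝ) ≤ K := Nat.cast_nonneg K
  have hN0 : (1 : ℝ) ≤ N := by exact_mod_cast hN
  have h2x : (J : ℝ) ≤ 2 * x := by linarith
  have hl2 : 0 < Real.log 2 := Real.log_pos (by norm_num)
  refine ⟨F.trc x hle, ?_, ?_, ?_⟩
  · unfold Fam.Tm at hTm ⊢
    have : θ / 2 * J ≤ θ * (x : ℝ) := by nlinarith
    linarith
  · intro j hj
    have h1 : CH F.p (Fl F.u j) (fun ω => (F.D j ω, F.Z ω)) ≤ ε / 2 * J := hS j (hj.trans hle)
    have h2 : ε / 2 * J ≤ ε * (x : ℝ) := by nlinarith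
    exact h1.trans h2
  · have g1 : CH F.p ((F.trc x hle).X x) (F.trc x hle).W ≤
        CH F.p (F.X J) F.W + cc m + N * Real.log 2 := by
      have : ((J : ℝ) - x) * Real.log 2 ≤ N * Real.log 2 :=
        mul_le_mul_of_nonneg_right (by linarith) hl2.le
      linarith
    have g2 : (m : ℝ) * (((J : ℝ) - x) * Real.log 2) ≤ m * (N * Real.log 2) :=
      mul_le_mul_of_nonneg_left (mul_le_mul_of_nonneg_right (by linarith) hl2.le)
        (Nat.cast_nonneg m)
    have g3 : a * CH F.p ((F.trc x hle).X x) (F.trc x hle).W ≤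
        a * (CH F.p (F.X J) F.W + cc m + N * Real.log 2) :=
      mul_le_mul_of_nonneg_left g1 (by linarith)
    have e6 : 2 * (|R - η| * N + a * (cc m + N * Real.log 2) + m * (N * Real.log 2)) ≤ η * K := by
      rw [div_le_iff₀ hη] at hK
      linarith
    have e7 : -(|R - η| * N) ≤ (R - η) * (J - x) := by
      have a1 : 0 ≤ (J : ℝ) - x := by linarith
      have a2 : (J : ℝ) - x ≤ N := by linarith
      have a3 := neg_abs_le (R - η)
      have a4 := abs_nonneg (R - η)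
      nlinarith
    have e8 : η * K ≤ η * (2 * x) := mul_le_mul_of_nonneg_left (by linarith) hη.le
    have e9 : (R - 2 * η) * x = (R - η) * J - (R - η) * (J - x) - η * x := by ring
    change a * CH F.p ((F.trc x hle).X x) (F.trc x hle).W + (R - 2 * η) * (x : ℝ) ≤
      CH F.p (F.D x) F.Z
    linarith

end Pool.STE
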